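import Pool.Agent.Helper98.NQ.Shift
import Pool.Agent.Helper78.NQ.Main

/-!
# Q11: programs which make errors
-/

set_option autoImplicit false

namespace Pool.Agent.Helper98.NQ

open Finset Pool.Agent.Helper19.NF Pool.Agent.Helper74.NW Pool.Agent.Helper99.NQ
open Pool.Agent.Helper74.NE (fine fine_apply)

section count

variable {X V : Type} [Finite X] [Fintype V]

open Classical in
/-- Many positions in each element. -/
theorem mul_card_le (H : X → Prop) (Q : V → X → Prop) (a : ℕ)
    (h : ∀ x, H x → a ≤ (univ.filter fun v => Q v x).card) :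
    a * Nat.card {x // H x} ≤ ∑ v, Nat.card {x // Q v x} := by
  have := Fintype.ofFinite X
  simp only [Nat.card_eq_fintype_card, Fintype.card_subtype]
  calc a * (univ.filter H).card = ∑ _x ∈ univ.filter H, a := by rw [sum_const, smul_eq_mul, mul_comm]
    _ ≤ ∑ x ∈ univ.filter H, (univ.filter fun v => Q v x).card :=
        sum_le_sum fun x hx => h x (mem_filter.1 hx).2
    _ ≤ ∑ x, (univ.filter fun v => Q v x).card := sum_le_sum_of_subset (filter_subset _ _)
    _ = ∑ v, (univ.filter fun x => Q v x).card := by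
        simp only [card_filter]
        rw [sum_comm]

omit [Fintype V] in
theorem card_three {p q₁ q₂ q₃ : X → Prop} (h : ∀ x, p x → q₁ x ∨ q₂ x ∨ q₃ x) :
    Nat.card {x // p x} ≤ Nat.card {x // q₁ x} + Nat.card {x // q₂ x} + Nat.card {x // q₃ x} := by
  classical
  have := Fintype.ofFinite X
  simp only [Nat.card_eq_fintype_card, Fintype.card_subtype]
  refine (card_le_card (t := (univ.filter q₁ ∪ univ.filter q₂) ∪ univ.filter q₃) ?_).trans
    ((card_union_le _ _).trans (Nat.add_le_add_right (card_union_le _ _) _))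
  intro x hx
  rw [mem_filter] at hx
  rw [mem_union, mem_union, mem_filter, mem_filter, mem_filter]
  rcases h x hx.2 with h1 | h1 | h1
  · exact Or.inl (Or.inl ⟨mem_univ _, h1⟩)
  · exact Or.inl (Or.inr ⟨mem_univ _, h1⟩)
  · exact Or.inr ⟨mem_univ _, h1⟩

end count

section main

variable {n D m d S : ℕ} [NeZero m] {F B Z : Type} [Field F] [Fintype F] [AddCommGroup B] [Module F B] [Fintype B]

omit [Fintype F] in
open Classical in
/-- A computation with more than `a` nodes which are not full has more than `a` letters with a hole. -/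
theorem card_holes (P : NProg (B × Word D m B) F Z S) (g : Fin D → Equiv.Perm (Fin n)) (x0 : Fin n × Fin m → B)
    (h a R : ℕ) {I : B × Word D m B → F} {l : List (B × Word D m B)} {z : Z} (hl : P.Ends I l z)
    (hn : ¬ n ≤ (full g x0 h R I (free l)).card + a) :
    a + 1 ≤ (univ.filter fun v => Hole P g x0 h R v I).card := by
  have h1 : (univ.filter fun u : Fin n => u ∈ full g x0 h R I (free l)).card +
      (univ.filter fun u : Fin n => ¬ u ∈ full g x0 h R I (free l)).card = n := by
    rw [card_filter_add_card_filter_not, card_univ, Fintype.card_fin]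
  have h2 : (univ.filter fun u : Fin n => u ∈ full g x0 h R I (free l)) = full g x0 h R I (free l) := by
    ext u
    rw [mem_filter]
    exact ⟨fun hu => hu.2, fun hu => ⟨mem_univ _, hu⟩⟩
  rw [h2] at h1
  have h3 : ∀ u : Fin n, ∃ t : Fin m, ¬ u ∈ full g x0 h R I (free l) →
      h ≤ gap (free l) (val (fine g) x0 (tab I) R (u, t)) := by
    intro u
    by_cases hu : u ∈ full g x0 h R I (free l)
    · exact ⟨0, fun h4 => absurd hu h4⟩
    · by_contra h4
      push Not at h4
      refine hu ?_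
      unfold full
      rw [mem_filter]
      exact ⟨mem_univ _, fun t => (h4 t).2⟩
  choose f hf using h3
  have h4 : (univ.filter fun u : Fin n => ¬ u ∈ full g x0 h R I (free l)).card ≤
      (univ.filter fun v => Hole P g x0 h R v I).card := by
    refine card_le_card_of_injOn (fun u => (u, f u)) ?_ ?_
    · intro u hu
      rw [mem_coe, mem_filter] at hu
      rw [mem_coe, mem_filter]
      exact ⟨mem_univ _, l, z, hl, hf u hu.2⟩
    · intro u _ u' _ e
      exact congrArg Prod.fst e
  omega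

/-- Functions: the right inputs. -/
theorem fun_bound (P : NProg (B × Word D m B) F Z S) (g : Fin D → Equiv.Perm (Fin n)) (x0 : Fin n × Fin m → B)
    (hx0 : Function.Injective x0) (h T a R κ j : ℕ) (c0 : Fin D × Fin m)
    (hX : ∀ X : Finset (Fin n), n ≤ 4 * X.card → n ≤ (X.biUnion (fun u => univ.image (fun s => g s u))).card + a)
    (ha : a < n) (hS : S ≤ 2 ^ R) (φ : B → Z) (p : ℕ) (hφ : ∀ z, Nat.card {x // φ x = z} ≤ p) (r : ℕ)
    (hr : p * (Fintype.card F * Fintype.card (Word D m B)) ^ r ≤ Fintype.card B * h ^ r)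
    (hL : h + 1 ≤ Fintype.card (Word D m B)) (hq : Fintype.card (Word D m B) ≤ h * Fintype.card F)
    (hT : T ≤ Fintype.card (B × Word D m B)) (η : ℝ)
    (hη : η = 1 + (1 - (T : ℝ) / Fintype.card (B × Word D m B) - (h : ℝ) / Fintype.card (Word D m B)) / 2)
    (hη1 : 1 ≤ η) (hκ : 2 * a ≤ κ) (hj : 2 * j ≤ n) :
    (Nat.card {I : B × Word D m B → F // (∃ l z, P.Ends I l z) ∧
      ∀ l z, P.Ends I l z → z = φ (res (fine g) x0 R c0 (tab I)) ∧ Nat.card {x // x ∈ l} ≤ T} : ℝ) ≤
      (((R + 1) * (n * m)) ^ 2 / Fintype.card B +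
        n * m / (a + 1) * (8 * ((Fintype.card (Word D m B) : ℝ) / (h * Fintype.card F)) ^ r) +
        R * S ^ 3 * 2 ^ n * (D * m) ^ (2 * n) *
          err n m d a κ j (Fintype.card F) ((h : ℝ) / Fintype.card (Word D m B)) η) *
        Nat.card (B × Word D m B → F) := by
  have h1 : Nat.card {I : B × Word D m B → F // (∃ l z, P.Ends I l z) ∧
      ∀ l z, P.Ends I l z → z = φ (res (fine g) x0 R c0 (tab I)) ∧ Nat.card {x // x ∈ l} ≤ T} ≤
      Nat.card {I : B × Word D m B → F // ¬ CF (fine g) x0 R (tab I)} +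
      Nat.card {I : B × Word D m B → F // CF (fine g) x0 R (tab I) ∧ (∃ l z, P.Ends I l z) ∧
        ∀ l z, P.Ends I l z → Nat.card {x // x ∈ l} ≤ T ∧ n ≤ (full g x0 h R I (free l)).card + a} +
      Nat.card {I : B × Word D m B → F // CF (fine g) x0 R (tab I) ∧
        (∀ l z, P.Ends I l z → z = φ (res (fine g) x0 R c0 (tab I))) ∧
        ∃ l z, P.Ends I l z ∧ ¬ n ≤ (full g x0 h R I (free l)).card + a} := by
    refine card_three ?_
    rintro I ⟨h2, h3⟩
    by_cases hcf : CF (fine g) x0 R (tab I)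
    · right
      by_cases h4 : ∀ l z, P.Ends I l z → n ≤ (full g x0 h R I (free l)).card + a
      · exact Or.inl ⟨hcf, h2, fun l z hl => ⟨(h3 l z hl).2, h4 l z hl⟩⟩
      · push Not at h4
        obtain ⟨l, z, hl, h5⟩ := h4
        exact Or.inr ⟨hcf, fun l z hl => (h3 l z hl).1, l, z, hl, not_le.mpr h5⟩
    · exact Or.inl hcf
  have h2 := mul_card_le (X := B × Word D m B → F) (V := Fin n × Fin m) (fun I => CF (fine g) x0 R (tab I) ∧
        (∀ l z, P.Ends I l z → z = φ (res (fine g) x0 R c0 (tab I))) ∧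
        ∃ l z, P.Ends I l z ∧ ¬ n ≤ (full g x0 h R I (free l)).card + a)
      (fun v I => Gd P g x0 h R c0 φ v I) (a + 1) (by
        classical
        rintro I ⟨hcf, h3, l, z, hl, h4⟩
        refine (card_holes P g x0 h a R hl h4).trans (card_le_card ?_)
        intro v hv
        exact mem_filter.2 ⟨mem_univ _, hcf, h3, (mem_filter.1 hv).2⟩)
  have h3 : ∀ v : Fin n × Fin m, (Nat.card {I : B × Word D m B → F // Gd P g x0 h R c0 φ v I} : ℝ) ≤
      8 * ((Fintype.card (Word D m B) : ℝ) / (h * Fintype.card F)) ^ r * Nat.card (B × Word D m B → F) := by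
    intro v
    have h4 : (Nat.card {I : B × Word D m B → F // Gd P g x0 h R c0 φ v I} : ℝ) * (h * Fintype.card F) ^ r ≤
        8 * (Fintype.card (Word D m B) : ℝ) ^ r * Nat.card (B × Word D m B → F) := by
      exact_mod_cast hole_fun P g x0 h R c0 φ p hφ r hr v
    have h5 : (0 : ℝ) < h * Fintype.card F := by
      have : 0 < h * Fintype.card F := lt_of_lt_of_le (by omega) hq
      exact_mod_cast this
    rw [div_pow, mul_div_assoc', div_mul_eq_mul_div, le_div_iff₀ (pow_pos h5 r)]
    exact h4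
  have h4 : ((a : ℝ) + 1) * Nat.card {I : B × Word D m B → F // CF (fine g) x0 R (tab I) ∧
        (∀ l z, P.Ends I l z → z = φ (res (fine g) x0 R c0 (tab I))) ∧
        ∃ l z, P.Ends I l z ∧ ¬ n ≤ (full g x0 h R I (free l)).card + a} ≤
      n * m * (8 * ((Fintype.card (Word D m B) : ℝ) / (h * Fintype.card F)) ^ r *
        Nat.card (B × Word D m B → F)) := by
    calc ((a : ℝ) + 1) * Nat.card {I : B × Word D m B → F // CF (fine g) x0 R (tab I) ∧
        (∀ l z, P.Ends I l z → z = φ (res (fine g) x0 R c0 (tab I))) ∧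
        ∃ l z, P.Ends I l z ∧ ¬ n ≤ (full g x0 h R I (free l)).card + a} ≤
          ∑ v : Fin n × Fin m, (Nat.card {I : B × Word D m B → F // Gd P g x0 h R c0 φ v I} : ℝ) := by
          exact_mod_cast h2
      _ ≤ ∑ _v : Fin n × Fin m, 8 * ((Fintype.card (Word D m B) : ℝ) / (h * Fintype.card F)) ^ r *
          Nat.card (B × Word D m B → F) := sum_le_sum fun v _ => h3 v
      _ = _ := by
          rw [sum_const, card_univ, Fintype.card_prod, Fintype.card_fin, Fintype.card_fin, nsmul_eq_mul,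
            Nat.cast_mul]
  have h5 := Pool.Agent.Helper78.NQ.card_cf (F := F) g x0 hx0 R c0
  have h6 := Pool.Agent.Helper78.NQ.forced_bound (d := d) P g x0 h T a R κ j hX ha hS hL hq hT η hη hη1 hκ hj
  have h7 : (0 : ℝ) < (a : ℝ) + 1 := by positivity
  have h8 : (Nat.card {I : B × Word D m B → F // CF (fine g) x0 R (tab I) ∧
        (∀ l z, P.Ends I l z → z = φ (res (fine g) x0 R c0 (tab I))) ∧
        ∃ l z, P.Ends I l z ∧ ¬ n ≤ (full g x0 h R I (free l)).card + a} : ℝ) ≤
      n * m / (a + 1) * (8 * ((Fintype.card (Word D m B) : ℝ) / (h * Fintype.card F)) ^ r) *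
        Nat.card (B × Word D m B → F) := by
    rw [div_mul_eq_mul_div, div_mul_eq_mul_div, le_div_iff₀ h7]
    calc _ = ((a : ℝ) + 1) * (Nat.card {I : B × Word D m B → F // CF (fine g) x0 R (tab I) ∧
        (∀ l z, P.Ends I l z → z = φ (res (fine g) x0 R c0 (tab I))) ∧
        ∃ l z, P.Ends I l z ∧ ¬ n ≤ (full g x0 h R I (free l)).card + a} : ℝ) := mul_comm _ _
      _ ≤ _ := h4
      _ = _ := by ring
  have h9 : (Nat.card {I : B × Word D m B → F // (∃ l z, P.Ends I l z) ∧
      ∀ l z, P.Ends I l z → z = φ (res (fine g) x0 R c0 (tab I)) ∧ Nat.card {x // x ∈ l} ≤ T} : ℝ) ≤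
      (Nat.card {I : B × Word D m B → F // ¬ CF (fine g) x0 R (tab I)} : ℝ) +
      (Nat.card {I : B × Word D m B → F // CF (fine g) x0 R (tab I) ∧ (∃ l z, P.Ends I l z) ∧
        ∀ l z, P.Ends I l z → Nat.card {x // x ∈ l} ≤ T ∧ n ≤ (full g x0 h R I (free l)).card + a} : ℝ) +
      (Nat.card {I : B × Word D m B → F // CF (fine g) x0 R (tab I) ∧
        (∀ l z, P.Ends I l z → z = φ (res (fine g) x0 R c0 (tab I))) ∧
        ∃ l z, P.Ends I l z ∧ ¬ n ≤ (full g x0 h R I (free l)).card + a} : ℝ) := by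
    exact_mod_cast h1
  refine h9.trans ((add_le_add (add_le_add h5 h6) h8).trans (le_of_eq ?_))
  ring

/-- Decision: the accepted inputs, against the wrongly accepted inputs. -/
theorem dec_bound (P : NProg (B × Word D m B) F Z S) (g : Fin D → Equiv.Perm (Fin n)) (x0 : Fin n × Fin m → B)
    (hx0 : Function.Injective x0) (h T a R κ j : ℕ) (c0 : Fin D × Fin m)
    (hX : ∀ X : Finset (Fin n), n ≤ 4 * X.card → n ≤ (X.biUnion (fun u => univ.image (fun s => g s u))).card + a)
    (ha : a < n) (hS : S ≤ 2 ^ R) (Y : Set B) (y : ℝ) (hy : y = Nat.card Y / Fintype.card B)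
    (hyh : y < (h : ℝ) / Fintype.card (Word D m B))
    (hL : h + 1 ≤ Fintype.card (Word D m B)) (hq : Fintype.card (Word D m B) ≤ h * Fintype.card F)
    (hT : T ≤ Fintype.card (B × Word D m B)) (η : ℝ)
    (hη : η = 1 + (1 - (T : ℝ) / Fintype.card (B × Word D m B) - (h : ℝ) / Fintype.card (Word D m B)) / 2)
    (hη1 : 1 ≤ η) (hκ : 2 * a ≤ κ) (hj : 2 * j ≤ n) :
    (Nat.card {I : B × Word D m B → F // res (fine g) x0 R c0 (tab I) ∈ Y ∧ (∃ l z, P.Ends I l z) ∧
      ∀ l z, P.Ends I l z → Nat.card {x // x ∈ l} ≤ T} : ℝ) ≤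
      (((R + 1) * (n * m)) ^ 2 / Fintype.card B +
        R * S ^ 3 * 2 ^ n * (D * m) ^ (2 * n) *
          err n m d a κ j (Fintype.card F) ((h : ℝ) / Fintype.card (Word D m B)) η) *
        Nat.card (B × Word D m B → F) +
      n * m / ((a + 1) * ((h : ℝ) / Fintype.card (Word D m B) - y)) *
        Nat.card {I : B × Word D m B → F // res (fine g) x0 R c0 (tab I) ∉ Y ∧ ∃ l z, P.Ends I l z} := by
  have h1 : Nat.card {I : B × Word D m B → F // res (fine g) x0 R c0 (tab I) ∈ Y ∧ (∃ l z, P.Ends I l z) ∧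
      ∀ l z, P.Ends I l z → Nat.card {x // x ∈ l} ≤ T} ≤
      Nat.card {I : B × Word D m B → F // ¬ CF (fine g) x0 R (tab I)} +
      Nat.card {I : B × Word D m B → F // CF (fine g) x0 R (tab I) ∧ (∃ l z, P.Ends I l z) ∧
        ∀ l z, P.Ends I l z → Nat.card {x // x ∈ l} ≤ T ∧ n ≤ (full g x0 h R I (free l)).card + a} +
      Nat.card {I : B × Word D m B → F // CF (fine g) x0 R (tab I) ∧ res (fine g) x0 R c0 (tab I) ∈ Y ∧
        ∃ l z, P.Ends I l z ∧ ¬ n ≤ (full g x0 h R I (free l)).card + a} := by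
    refine card_three ?_
    rintro I ⟨hY, h2, h3⟩
    by_cases hcf : CF (fine g) x0 R (tab I)
    · right
      by_cases h4 : ∀ l z, P.Ends I l z → n ≤ (full g x0 h R I (free l)).card + a
      · exact Or.inl ⟨hcf, h2, fun l z hl => ⟨h3 l z hl, h4 l z hl⟩⟩
      · push Not at h4
        obtain ⟨l, z, hl, h5⟩ := h4
        exact Or.inr ⟨hcf, hY, l, z, hl, not_le.mpr h5⟩
    · exact Or.inl hcf
  have h2 := mul_card_le (X := B × Word D m B → F) (V := Fin n × Fin m) (fun I => CF (fine g) x0 R (tab I) ∧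
        res (fine g) x0 R c0 (tab I) ∈ Y ∧
        ∃ l z, P.Ends I l z ∧ ¬ n ≤ (full g x0 h R I (free l)).card + a)
      (fun v I => Gy P g x0 h R c0 Y v I) (a + 1) (by
        classical
        rintro I ⟨hcf, h3, l, z, hl, h4⟩
        refine (card_holes P g x0 h a R hl h4).trans (card_le_card ?_)
        intro v hv
        exact mem_filter.2 ⟨mem_univ _, hcf, h3, (mem_filter.1 hv).2⟩)
  set E : ℝ := ((Nat.card {I : B × Word D m B → F //
    res (fine g) x0 R c0 (tab I) ∉ Y ∧ ∃ l z, P.Ends I l z} : ℕ) : ℝ) with hE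
  have hB0 : (0 : ℝ) < Fintype.card B := by exact_mod_cast Fintype.card_pos_iff.mpr ⟨(0 : B)⟩
  have hL0 : (0 : ℝ) < Fintype.card (Word D m B) := by exact_mod_cast (by omega : 0 < Fintype.card (Word D m B))
  have hpos : 0 < (h : ℝ) / Fintype.card (Word D m B) - y := sub_pos.mpr hyh
  have h3 : ∀ v : Fin n × Fin m, (Nat.card {I : B × Word D m B → F // Gy P g x0 h R c0 Y v I} : ℝ) ≤
      E / ((h : ℝ) / Fintype.card (Word D m B) - y) := by
    intro v
    have h4 : (Nat.card {I : B × Word D m B → F // Gy P g x0 h R c0 Y v I} : ℝ) * (h * Fintype.card B) ≤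
        Fintype.card (Word D m B) * E * Fintype.card B +
          Nat.card {I : B × Word D m B → F // Gy P g x0 h R c0 Y v I} *
            (Nat.card Y * Fintype.card (Word D m B)) := by
      rw [hE]
      exact_mod_cast hole_dec P g x0 h R c0 Y v
    rw [le_div_iff₀ hpos]
    refine le_of_mul_le_mul_right ?_ (mul_pos hL0 hB0)
    have h5 : ((h : ℝ) / Fintype.card (Word D m B) - y) * (Fintype.card (Word D m B) * Fintype.card B) =
        h * Fintype.card B - Nat.card Y * Fintype.card (Word D m B) := by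
      rw [hy]
      field_simp
    calc (Nat.card {I : B × Word D m B → F // Gy P g x0 h R c0 Y v I} : ℝ) *
          ((h : ℝ) / Fintype.card (Word D m B) - y) * (Fintype.card (Word D m B) * Fintype.card B)
        = Nat.card {I : B × Word D m B → F // Gy P g x0 h R c0 Y v I} *
          (((h : ℝ) / Fintype.card (Word D m B) - y) * (Fintype.card (Word D m B) * Fintype.card B)) := by ring
      _ = Nat.card {I : B × Word D m B → F // Gy P g x0 h R c0 Y v I} *
          (h * Fintype.card B - Nat.card Y * Fintype.card (Word D m B)) := by rw [h5]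
      _ ≤ E * (Fintype.card (Word D m B) * Fintype.card B) := by linarith
  have h4 : ((a : ℝ) + 1) * Nat.card {I : B × Word D m B → F // CF (fine g) x0 R (tab I) ∧
        res (fine g) x0 R c0 (tab I) ∈ Y ∧
        ∃ l z, P.Ends I l z ∧ ¬ n ≤ (full g x0 h R I (free l)).card + a} ≤
      n * m * (E / ((h : ℝ) / Fintype.card (Word D m B) - y)) := by
    calc ((a : ℝ) + 1) * Nat.card {I : B × Word D m B → F // CF (fine g) x0 R (tab I) ∧
        res (fine g) x0 R c0 (tab I) ∈ Y ∧
        ∃ l z, P.Ends I l z ∧ ¬ n ≤ (full g x0 h R I (free l)).card + a} ≤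
          ∑ v : Fin n × Fin m, (Nat.card {I : B × Word D m B → F // Gy P g x0 h R c0 Y v I} : ℝ) := by
          exact_mod_cast h2
      _ ≤ ∑ _v : Fin n × Fin m, E / ((h : ℝ) / Fintype.card (Word D m B) - y) := sum_le_sum fun v _ => h3 v
      _ = _ := by
          rw [sum_const, card_univ, Fintype.card_prod, Fintype.card_fin, Fintype.card_fin, nsmul_eq_mul,
            Nat.cast_mul]
  have h5 := Pool.Agent.Helper78.NQ.card_cf (F := F) g x0 hx0 R c0
  have h6 := Pool.Agent.Helper78.NQ.forced_bound (d := d) P g x0 h T a R κ j hX ha hS hL hq hT η hη hη1 hκ hj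
  have h7 : (0 : ℝ) < (a : ℝ) + 1 := by positivity
  have h8 : (Nat.card {I : B × Word D m B → F // CF (fine g) x0 R (tab I) ∧
        res (fine g) x0 R c0 (tab I) ∈ Y ∧
        ∃ l z, P.Ends I l z ∧ ¬ n ≤ (full g x0 h R I (free l)).card + a} : ℝ) ≤
      n * m / ((a + 1) * ((h : ℝ) / Fintype.card (Word D m B) - y)) * E := by
    rw [div_mul_eq_mul_div, le_div_iff₀ (mul_pos h7 hpos)]
    calc _ = (((a : ℝ) + 1) * (Nat.card {I : B × Word D m B → F // CF (fine g) x0 R (tab I) ∧
        res (fine g) x0 R c0 (tab I) ∈ Y ∧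
        ∃ l z, P.Ends I l z ∧ ¬ n ≤ (full g x0 h R I (free l)).card + a} : ℝ)) *
          ((h : ℝ) / Fintype.card (Word D m B) - y) := by ring
      _ ≤ n * m * (E / ((h : ℝ) / Fintype.card (Word D m B) - y)) *
          ((h : ℝ) / Fintype.card (Word D m B) - y) := mul_le_mul_of_nonneg_right h4 hpos.le
      _ = _ := by
        rw [mul_assoc (n * m : ℝ), div_mul_cancel₀ _ hpos.ne']
  have h9 : (Nat.card {I : B × Word D m B → F // res (fine g) x0 R c0 (tab I) ∈ Y ∧ (∃ l z, P.Ends I l z) ∧
      ∀ l z, P.Ends I l z → Nat.card {x // x ∈ l} ≤ T} : ℝ) ≤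
      (Nat.card {I : B × Word D m B → F // ¬ CF (fine g) x0 R (tab I)} : ℝ) +
      (Nat.card {I : B × Word D m B → F // CF (fine g) x0 R (tab I) ∧ (∃ l z, P.Ends I l z) ∧
        ∀ l z, P.Ends I l z → Nat.card {x // x ∈ l} ≤ T ∧ n ≤ (full g x0 h R I (free l)).card + a} : ℝ) +
      (Nat.card {I : B × Word D m B → F // CF (fine g) x0 R (tab I) ∧ res (fine g) x0 R c0 (tab I) ∈ Y ∧
        ∃ l z, P.Ends I l z ∧ ¬ n ≤ (full g x0 h R I (free l)).card + a} : ℝ) := by
    exact_mod_cast h1
  refine h9.trans ((add_le_add (add_le_add h5 h6) h8).trans (le_of_eq ?_))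
  ring

end main

end Pool.Agent.Helper98.NQ
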