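import Pool.Agent.Helper99.NQ.Defs
import Pool.Agent.Helper60.NQ.LemD

/-!
# The root for programs which make errors

One position `p` of the row `R`. If many inputs are treated correctly by a computation which leaves many symbols of the
block of `p` unread, then changes of unread symbols give inputs with a wrong result.
-/

set_option autoImplicit false

namespace Pool.Agent.Helper98.NQ

open Finset Pool.Agent.Helper19.NF Pool.Agent.Helper74.NW Pool.Agent.Helper99.NQ
open Pool.Agent.Helper74.NE (fine fine_apply)

section hom

variable {G H : Type} [AddCommGroup G] [Fintype G] [AddCommGroup H] [Fintype H]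

open Classical in
/-- The preimages of a surjective homomorphism. -/
theorem card_preimage (f : G →+ H) (hf : Function.Surjective f) (Y : Finset H) :
    (univ.filter fun x => f x ∈ Y).card * Fintype.card H = Y.card * Fintype.card G := by
  have hc : ∀ y, (univ.filter fun x => f x = y).card = (univ.filter fun x => f x = 0).card := by
    intro y
    obtain ⟨x0, hx0⟩ := hf y
    refine card_bij' (fun x _ => x - x0) (fun x _ => x + x0) ?_ ?_ ?_ ?_
    · intro x hx
      rw [mem_filter] at hx ⊢
      exact ⟨mem_univ _, by rw [map_sub, hx.2, hx0, sub_self]⟩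
    · intro x hx
      rw [mem_filter] at hx ⊢
      exact ⟨mem_univ _, by rw [map_add, hx.2, hx0, zero_add]⟩
    · intro x _
      exact sub_add_cancel _ _
    · intro x _
      exact add_sub_cancel_right _ _
  have h1 : (univ.filter fun x => f x ∈ Y).card = Y.card * (univ.filter fun x => f x = 0).card := by
    rw [card_eq_sum_card_fiberwise (f := f) (s := univ.filter fun x => f x ∈ Y) (t := Y)
      (fun x hx => (mem_filter.1 (mem_coe.1 hx)).2), ← smul_eq_mul, ← sum_const]
    refine sum_congr rfl fun y hy => ?_
    rw [← hc y]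
    congr 1
    ext x
    rw [mem_filter, mem_filter, mem_filter]
    constructor
    · rintro ⟨_, h⟩
      exact ⟨mem_univ _, h⟩
    · rintro ⟨_, h⟩
      exact ⟨⟨mem_univ _, h ▸ hy⟩, h⟩
  have h2 : Fintype.card G = Fintype.card H * (univ.filter fun x => f x = 0).card := by
    rw [← card_univ (α := G), card_eq_sum_card_fiberwise (f := f) (t := univ) (fun x _ => mem_coe.2 (mem_univ _)),
      ← card_univ (α := H), ← smul_eq_mul, ← sum_const]
    exact sum_congr rfl fun y _ => hc y
  rw [h1, h2]
  ring

end hom

section orbit

variable {W F B Z : Type} [AddCommGroup W] [Fintype W] [Field F] [Fintype F] [AddCommGroup B] [Module F B]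
  [Fintype B]

open Classical in
/-- The change of the symbols number `b j` by `e j`. -/
noncomputable def chg {r : ℕ} (b : Fin r → W) : (Fin r → F) →+ (W → F) where
  toFun e := fun l => ∑ j, if b j = l then e j else 0
  map_zero' := by
    funext l
    simp
  map_add' e e' := by
    funext l
    simp only [Pi.add_apply, ← sum_add_distrib]
    refine sum_congr rfl fun j _ => ?_
    split_ifs <;> simp

omit [AddCommGroup W] [Fintype W] [Fintype F] in
theorem chg_ne {r : ℕ} {b : Fin r → W} {e : Fin r → F} {l : W} (h : chg b e l ≠ 0) : ∃ j, b j = l := by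
  classical
  by_contra h1
  push Not at h1
  refine h ?_
  show (∑ j, if b j = l then e j else 0) = 0
  exact sum_eq_zero fun j _ => if_neg (h1 j)

omit [AddCommGroup W] [Fintype F] [Fintype B] in
/-- The sum of the entries, multiplied by the symbols. -/
theorem sum_chg {r : ℕ} (ev : W → B) (b : Fin r → W) (e : Fin r → F) :
    ∑ l, chg b e l • ev l = ∑ j, e j • ev (b j) := by
  classical
  have h1 : ∀ l, chg b e l • ev l = ∑ j, if b j = l then e j • ev l else 0 := by
    intro l
    show (∑ j, if b j = l then e j else 0) • ev l = _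
    rw [sum_smul]
    refine sum_congr rfl fun j _ => ?_
    split_ifs
    · rfl
    · rw [zero_smul]
  simp only [h1]
  rw [sum_comm]
  refine sum_congr rfl fun j _ => ?_
  rw [sum_ite_eq]
  simp

/-- For a fixed `e`, as a homomorphism in `b`. -/
def mv {r : ℕ} (ev : W →+ B) (e : Fin r → F) : (Fin r → W) →+ B where
  toFun b := ∑ j, e j • ev (b j)
  map_zero' := by simp
  map_add' b b' := by
    rw [← sum_add_distrib]
    refine sum_congr rfl fun j _ => ?_
    rw [Pi.add_apply, map_add, smul_add]

omit [Fintype W] [Fintype F] [Fintype B] in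
theorem mv_surjective {r : ℕ} (ev : W →+ B) (hev : Function.Surjective ev) {e : Fin r → F} (he : e ≠ 0) :
    Function.Surjective (mv ev e) := by
  classical
  intro y
  obtain ⟨j0, hj0⟩ : ∃ j, e j ≠ 0 := by
    by_contra h
    push Not at h
    exact he (funext h)
  obtain ⟨w, hw⟩ := hev ((e j0)⁻¹ • y)
  refine ⟨Pi.single j0 w, ?_⟩
  show ∑ j, e j • ev ((Pi.single j0 w : Fin r → W) j) = y
  rw [sum_eq_single j0]
  · rw [Pi.single_eq_same, hw, smul_smul, mul_inv_cancel₀ hj0, one_smul]
  · intro j _ hj
    rw [Pi.single_eq_of_ne hj, map_zero, smul_zero]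
  · intro h
    exact absurd (mem_univ _) h

open Classical in
/-- The contents `x` of one block: few of them are treated correctly with many symbols unread. -/
theorem orbit_fun (ev : W →+ B) (hev : Function.Surjective ev) (ρ : (W → F) → B)
    (hρ : ∀ x x', ρ (x + x') = ρ x + ∑ l, x' l • ev l) (φ : B → Z) (p : ℕ)
    (hφ : ∀ z, (univ.filter fun x => φ x = z).card ≤ p) (h : ℕ) (G : Finset (W → F))
    (U : (W → F) → Finset W) (hU : ∀ x ∈ G, h ≤ (U x).card)
    (hG : ∀ x ∈ G, ∀ x' ∈ G, (∀ l, x' l ≠ x l → l ∈ U x) → φ (ρ x') = φ (ρ x)) (r : ℕ)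
    (hr : p * (Fintype.card F * Fintype.card W) ^ r ≤ Fintype.card B * h ^ r) :
    G.card * (h * Fintype.card F) ^ r ≤ 8 * Fintype.card W ^ r * Nat.card (W → F) := by
  rw [Nat.card_eq_fintype_card]
  have hk : 0 < Fintype.card B := Fintype.card_pos_iff.mpr ⟨0⟩
  have h1 := Pool.Agent.Helper60.NQ.lemD (X := W → F) (Y := Fin r → W) (V := Fin r → F)
    (fun b => chg b) G (fun x => Fintype.piFinset fun _ : Fin r => U x) {0} 1 (h ^ r)
    (by rw [card_singleton])
    (by
      intro x hx
      rw [Fintype.card_piFinset, prod_const, card_univ, Fintype.card_fin]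
      exact Nat.pow_le_pow_left (hU x hx) r)
    (by
      intro x hx
      -- the incoming changes
      set Y : Finset B := univ.filter fun y => φ (ρ x - y) = φ (ρ x) with hY
      have hYp : Y.card ≤ p := by
        refine le_trans ?_ (hφ (φ (ρ x)))
        refine card_le_card_of_injOn (fun y => ρ x - y) ?_ ?_
        · intro y hy
          rw [mem_coe, hY, mem_filter] at hy
          rw [mem_coe, mem_filter]
          exact ⟨mem_univ _, hy.2⟩
        · intro y _ y' _ hyy
          exact sub_right_injective hyy
      have h2 : (univ.filter fun z : (Fin r → F) × (Fin r → W) => z.1 ∉ ({0} : Finset (Fin r → F)) ∧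
          x - chg z.2 z.1 ∈ G ∧ z.2 ∈ Fintype.piFinset fun _ : Fin r => U (x - chg z.2 z.1)) ⊆
          univ.filter fun z : (Fin r → F) × (Fin r → W) => z.1 ≠ 0 ∧ mv ev z.1 z.2 ∈ Y := by
        intro z hz
        obtain ⟨_, h3, h4, h5⟩ := mem_filter.1 hz
        rw [mem_filter]
        refine ⟨mem_univ _, fun h6 => h3 (mem_singleton.2 h6), ?_⟩
        rw [Fintype.mem_piFinset] at h5
        have h6 := hG _ h4 x hx (by
          intro l hl
          have h7 : chg z.2 z.1 l ≠ 0 := by
            intro h8
            apply hl
            rw [Pi.sub_apply, h8, sub_zero]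
          obtain ⟨j, hj⟩ := chg_ne h7
          rw [← hj]
          exact h5 j)
        have h7 : ρ x = ρ (x - chg z.2 z.1) + mv ev z.1 z.2 := by
          have h8 := hρ (x - chg z.2 z.1) (chg z.2 z.1)
          rw [sub_add_cancel, sum_chg] at h8
          exact h8
        rw [hY, mem_filter]
        refine ⟨mem_univ _, ?_⟩
        have h8 : ρ x - mv ev z.1 z.2 = ρ (x - chg z.2 z.1) := by rw [h7, add_sub_cancel_right]
        rw [h8]
        exact h6.symm
      refine le_trans (le_of_eq ?_) ((card_le_card h2).trans ?_)
      · congr!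
      have h3 : (univ.filter fun z : (Fin r → F) × (Fin r → W) => z.1 ≠ 0 ∧ mv ev z.1 z.2 ∈ Y).card =
          ∑ e : Fin r → F, (univ.filter fun b : Fin r → W => e ≠ 0 ∧ mv ev e b ∈ Y).card := by
        rw [card_filter, Fintype.sum_prod_type]
        refine sum_congr rfl fun e _ => ?_
        rw [card_filter]
      have h4 : ∀ e : Fin r → F, (univ.filter fun b : Fin r → W => e ≠ 0 ∧ mv ev e b ∈ Y).card *
          Fintype.card B ≤ p * Fintype.card W ^ r := by
        intro e
        by_cases he : e = 0
        · have h5 : (univ.filter fun b : Fin r → W => e ≠ 0 ∧ mv ev e b ∈ Y) = ∅ := by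
            rw [filter_eq_empty_iff]
            intro b _ h6
            exact h6.1 he
          rw [h5, card_empty, zero_mul]
          exact Nat.zero_le _
        · have h5 : (univ.filter fun b : Fin r → W => e ≠ 0 ∧ mv ev e b ∈ Y) =
              univ.filter fun b : Fin r → W => mv ev e b ∈ Y := by
            ext b
            constructor
            · intro h6
              exact mem_filter.2 ⟨mem_univ _, (mem_filter.1 h6).2.2⟩
            · intro h6
              exact mem_filter.2 ⟨mem_univ _, he, (mem_filter.1 h6).2⟩
          rw [h5, card_preimage (mv ev e) (mv_surjective ev hev he) Y, Fintype.card_fun, Fintype.card_fin]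
          exact Nat.mul_le_mul_right _ hYp
      refine Nat.le_of_mul_le_mul_right ?_ hk
      rw [h3, sum_mul]
      calc ∑ e : Fin r → F, (univ.filter fun b : Fin r → W => e ≠ 0 ∧ mv ev e b ∈ Y).card * Fintype.card B
          ≤ ∑ _e : Fin r → F, p * Fintype.card W ^ r := sum_le_sum fun e _ => h4 e
        _ = p * (Fintype.card F * Fintype.card W) ^ r := by
            rw [sum_const, card_univ, Fintype.card_fun, Fintype.card_fin, smul_eq_mul, mul_pow]
            ring
        _ ≤ h ^ r * Fintype.card B := by rw [mul_comm (h ^ r)]; exact hr)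
  rw [Fintype.card_fun (α := Fin r) (β := F), Fintype.card_fun (α := Fin r) (β := W), Fintype.card_fin] at h1
  calc G.card * (h * Fintype.card F) ^ r = G.card * h ^ r * Fintype.card F ^ r := by rw [mul_pow]; ring
    _ ≤ 4 * (1 + 1) * (Fintype.card W ^ r * Fintype.card (W → F)) := h1
    _ = _ := by ring

end orbit

section avg

variable {Ω X : Type} [Fintype Ω] [Fintype X]

open Classical in
/-- Averaging over changes. -/
theorem avg (C G : Ω → Prop) (T T' : X → Ω → Ω) (hT' : ∀ x ω, C ω → C (T' x ω))
    (hinv : ∀ x ω, C ω → T x (T' x ω) = ω) (hG : ∀ ω, G ω → C ω) (A M : ℕ)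
    (h : ∀ ω, C ω → (univ.filter fun x => G (T x ω)).card * A ≤ M) :
    (univ.filter fun ω => G ω).card * A * Fintype.card X ≤ Fintype.card Ω * M := by
  have h1 : ∀ x, (univ.filter fun ω => G ω).card ≤ (univ.filter fun ω => C ω ∧ G (T x ω)).card := by
    intro x
    refine card_le_card_of_injOn (T' x) ?_ ?_
    · intro ω hω
      rw [mem_coe, mem_filter] at hω ⊢
      have h2 := hG ω hω.2
      refine ⟨mem_univ _, hT' x ω h2, ?_⟩
      rw [hinv x ω h2]
      exact hω.2
    · intro ω hω ω' hω' e
      rw [mem_coe, mem_filter] at hω hω'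
      rw [← hinv x ω (hG ω hω.2), ← hinv x ω' (hG ω' hω'.2), e]
  have h2 : ∑ x, (univ.filter fun ω => C ω ∧ G (T x ω)).card =
      ∑ ω, (univ.filter fun x => C ω ∧ G (T x ω)).card := by
    simp only [card_filter]
    rw [sum_comm]
  calc (univ.filter fun ω => G ω).card * A * Fintype.card X
      = (∑ _x : X, (univ.filter fun ω => G ω).card) * A := by
        rw [sum_const, card_univ, smul_eq_mul]
        ring
    _ ≤ (∑ x, (univ.filter fun ω => C ω ∧ G (T x ω)).card) * A :=
        Nat.mul_le_mul_right _ (sum_le_sum fun x _ => h1 x)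
    _ = ∑ ω, (univ.filter fun x => C ω ∧ G (T x ω)).card * A := by rw [h2, sum_mul]
    _ ≤ ∑ _ω : Ω, M := by
        refine sum_le_sum fun ω _ => ?_
        by_cases hω : C ω
        · refine le_trans (Nat.mul_le_mul_right _ (card_le_card ?_)) (h ω hω)
          intro x hx
          rw [mem_filter] at hx ⊢
          exact ⟨hx.1, hx.2.2⟩
        · have h3 : (univ.filter fun x => C ω ∧ G (T x ω)) = ∅ := by
            rw [filter_eq_empty_iff]
            intro x _ h4
            exact hω h4.1
          rw [h3, card_empty, zero_mul]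
          exact Nat.zero_le _
    _ = Fintype.card Ω * M := by rw [sum_const, card_univ, smul_eq_mul]

end avg

end Pool.Agent.Helper98.NQ
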