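import Pool.Agent.Helper98.NQ.Root

/-!
# Changes of one block of the row `R`, and the bounds for one position
-/

set_option autoImplicit false

namespace Pool.Agent.Helper98.NQ

open Finset Pool.Agent.Helper19.NF Pool.Agent.Helper74.NW Pool.Agent.Helper99.NQ
open Pool.Agent.Helper74.NE (fine fine_apply)

section shift

variable {n D m S : ℕ} {F B Z : Type} [Field F] [AddCommGroup B] [Module F B] [Fintype B]

theorem word_apply (y : Word D m B → F) (c : Fin D × Fin m) : word y c = ∑ l, y l • l c := by
  classical
  unfold word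
  rw [Finset.sum_apply]
  refine (Finset.sum_congr ?_ fun l _ => ?_)
  · exact congrArg _ (Subsingleton.elim _ _)
  · rw [Pi.smul_apply]

theorem word_add (y y' : Word D m B → F) : word (y + y') = word y + word y' := by
  classical
  funext c
  rw [Pi.add_apply, word_apply, word_apply, word_apply, ← Finset.sum_add_distrib]
  refine Finset.sum_congr rfl fun l _ => ?_
  rw [Pi.add_apply, add_smul]

variable [NeZero m]

open Classical in
/-- The change of the block of the letter `p` of the row `R` by `x`. -/
noncomputable def sh (g : Fin D → Equiv.Perm (Fin n)) (x0 : Fin n × Fin m → B) (R : ℕ) (p : Fin n × Fin m)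
    (x : Word D m B → F) (I : B × Word D m B → F) : B × Word D m B → F :=
  fun z => I z + if z.1 = val (fine g) x0 (tab I) R p then x z.2 else 0

open Classical in
/-- The change of the table. -/
noncomputable def dt (g : Fin D → Equiv.Perm (Fin n)) (x0 : Fin n × Fin m → B) (R : ℕ) (p : Fin n × Fin m)
    (x : Word D m B → F) (I : B × Word D m B → F) : B → Word D m B :=
  fun b => if b = val (fine g) x0 (tab I) R p then word x else 0

variable {g : Fin D → Equiv.Perm (Fin n)} {x0 : Fin n × Fin m → B} {R : ℕ} {p : Fin n × Fin m}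
  {I : B × Word D m B → F}

theorem tab_sh (x : Word D m B → F) : tab (sh g x0 R p x I) = tab I + dt g x0 R p x I := by
  classical
  funext b
  show word (fun l => sh g x0 R p x I (b, l)) = tab I b + dt g x0 R p x I b
  by_cases h : b = val (fine g) x0 (tab I) R p
  · have h1 : (fun l => sh g x0 R p x I (b, l)) = (fun l => I (b, l)) + x := by
      funext l
      show I (b, l) + (if b = val (fine g) x0 (tab I) R p then x l else 0) = I (b, l) + x l
      rw [if_pos h]
    have h2 : dt g x0 R p x I b = word x := if_pos h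
    rw [h1, h2, word_add]
    rfl
  · have h1 : (fun l => sh g x0 R p x I (b, l)) = (fun l => I (b, l)) := by
      funext l
      show I (b, l) + (if b = val (fine g) x0 (tab I) R p then x l else 0) = I (b, l)
      rw [if_neg h, add_zero]
    have h2 : dt g x0 R p x I b = 0 := if_neg h
    rw [h1, h2, add_zero]
    rfl

theorem dt_ne (x : Word D m B → F) : ∀ b, dt g x0 R p x I b ≠ 0 → ∃ v, b = val (fine g) x0 (tab I) R v := by
  intro b hb
  by_contra h
  push Not at h
  exact hb (if_neg (h p))

theorem val_sh (hcf : CF (fine g) x0 R (tab I)) (x : Word D m B → F) :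
    ∀ j ≤ R, ∀ u, val (fine g) x0 (tab (sh g x0 R p x I)) j u = val (fine g) x0 (tab I) j u := by
  intro j hj u
  rw [tab_sh]
  exact val_add hcf _ (dt_ne x) j hj u

theorem cf_sh (hcf : CF (fine g) x0 R (tab I)) (x : Word D m B → F) :
    CF (fine g) x0 R (tab (sh g x0 R p x I)) := by
  rw [tab_sh]
  exact CF_add hcf _ (dt_ne x)

theorem res_sh (hcf : CF (fine g) x0 R (tab I)) (x : Word D m B → F) (c0 : Fin D × Fin m) :
    res (fine g) x0 R c0 (tab (sh g x0 R p x I)) = res (fine g) x0 R c0 (tab I) + ∑ l, x l • l c0 := by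
  classical
  rw [tab_sh, res_add c0 hcf _ (dt_ne x)]
  congr 1
  rw [Finset.sum_eq_single p]
  · have h1 : dt g x0 R p x I (val (fine g) x0 (tab I) R p) = word x := if_pos rfl
    rw [h1, word_apply]
  · intro u _ hu
    have h1 : dt g x0 R p x I (val (fine g) x0 (tab I) R u) = 0 := by
      refine if_neg fun h => hu ?_
      exact (hcf R R u p le_rfl le_rfl h).2
    rw [h1, Pi.zero_apply]
  · intro h
    exact absurd (mem_univ _) h

theorem sh_sh (hcf : CF (fine g) x0 R (tab I)) (x x' : Word D m B → F) :
    sh g x0 R p x' (sh g x0 R p x I) = sh g x0 R p (x + x') I := by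
  classical
  funext z
  show I z + (if z.1 = val (fine g) x0 (tab I) R p then x z.2 else 0) +
    (if z.1 = val (fine g) x0 (tab (sh g x0 R p x I)) R p then x' z.2 else 0) =
      I z + if z.1 = val (fine g) x0 (tab I) R p then (x + x') z.2 else 0
  rw [val_sh hcf x R le_rfl, add_assoc]
  congr 1
  split_ifs
  · rfl
  · rw [add_zero]

theorem sh_zero : sh g x0 R p 0 I = I := by
  classical
  funext z
  show I z + (if z.1 = val (fine g) x0 (tab I) R p then (0 : F) else 0) = I z
  rw [ite_self, add_zero]

theorem sh_neg (hcf : CF (fine g) x0 R (tab I)) (x : Word D m B → F) :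
    sh g x0 R p x (sh g x0 R p (-x) I) = I := by
  rw [sh_sh hcf, neg_add_cancel, sh_zero]

/-- A computation which does not read the changed symbols. -/
theorem ends_sh (P : NProg (B × Word D m B) F Z S) {l : List (B × Word D m B)} {z : Z} (hl : P.Ends I l z)
    (x : Word D m B → F) (h : ∀ w, x w ≠ 0 → (val (fine g) x0 (tab I) R p, w) ∉ l) :
    P.Ends (sh g x0 R p x I) l z := by
  classical
  obtain ⟨t, h1, h2⟩ := hl
  refine ⟨t, run_congr h1 ?_, h2⟩
  intro c hc
  show I c = I c + if c.1 = val (fine g) x0 (tab I) R p then x c.2 else 0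
  split_ifs with h3
  · have h4 : x c.2 = 0 := by
      by_contra h5
      apply h _ h5
      rw [← h3]
      exact hc
    rw [h4, add_zero]
  · rw [add_zero]

end shift

section main

variable {n D m S : ℕ} [NeZero m] {F B Z : Type} [Field F] [Fintype F] [AddCommGroup B] [Module F B] [Fintype B]

/-- On the input `I` some computation with a result leaves at least `h` symbols of the block of the letter `p` of the
row `R` unread. -/
def Hole (P : NProg (B × Word D m B) F Z S) (g : Fin D → Equiv.Perm (Fin n)) (x0 : Fin n × Fin m → B) (h R : ℕ)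
    (p : Fin n × Fin m) (I : B × Word D m B → F) : Prop :=
  ∃ l z, P.Ends I l z ∧ h ≤ gap (free l) (val (fine g) x0 (tab I) R p)

/-- The entry number `c0` of a word. -/
def ev (B : Type) [AddCommGroup B] {D m : ℕ} (c0 : Fin D × Fin m) : Word D m B →+ B :=
  Pi.evalAddMonoidHom (fun _ => B) c0

theorem ev_surjective (B : Type) [AddCommGroup B] {D m : ℕ} (c0 : Fin D × Fin m) :
    Function.Surjective (ev B c0) := fun y => ⟨fun _ => y, rfl⟩

/-- Correct results and a hole in the block of the letter `v`. -/
def Gd (P : NProg (B × Word D m B) F Z S) (g : Fin D → Equiv.Perm (Fin n)) (x0 : Fin n × Fin m → B) (h R : ℕ)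
    (c0 : Fin D × Fin m) (φ : B → Z) (v : Fin n × Fin m) (I : B × Word D m B → F) : Prop :=
  CF (fine g) x0 R (tab I) ∧
    (∀ l z, P.Ends I l z → z = φ (res (fine g) x0 R c0 (tab I))) ∧ Hole P g x0 h R v I

open Classical in
/-- The changes of one block. -/
theorem hole_orbit (P : NProg (B × Word D m B) F Z S) (g : Fin D → Equiv.Perm (Fin n)) (x0 : Fin n × Fin m → B)
    (h R : ℕ) (c0 : Fin D × Fin m) (φ : B → Z) (p : ℕ) (hφ : ∀ z, Nat.card {x // φ x = z} ≤ p) (r : ℕ)
    (hr : p * (Fintype.card F * Fintype.card (Word D m B)) ^ r ≤ Fintype.card B * h ^ r) (v : Fin n × Fin m)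
    (I : B × Word D m B → F) (hI : CF (fine g) x0 R (tab I)) :
    (univ.filter fun x : Word D m B → F => Gd P g x0 h R c0 φ v (sh g x0 R v x I)).card *
        (h * Fintype.card F) ^ r ≤
      8 * Fintype.card (Word D m B) ^ r * Nat.card (Word D m B → F) := by
  -- the computation which belongs to `x`
  have hex : ∀ x : Word D m B → F, ∃ l : List (B × Word D m B), ∃ z : Z,
      Gd P g x0 h R c0 φ v (sh g x0 R v x I) →
      P.Ends (sh g x0 R v x I) l z ∧ h ≤ gap (free l) (val (fine g) x0 (tab I) R v) := by
    intro x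
    by_cases hx : Gd P g x0 h R c0 φ v (sh g x0 R v x I)
    · obtain ⟨l, z, hl, hh⟩ := hx.2.2
      rw [val_sh hI x R le_rfl] at hh
      exact ⟨l, z, fun _ => ⟨hl, hh⟩⟩
    · exact ⟨[], φ 0, fun h2 => absurd h2 hx⟩
  choose l z hlz using hex
  refine orbit_fun (ev B c0) (ev_surjective B c0) (fun x => res (fine g) x0 R c0 (tab (sh g x0 R v x I)))
    ?_ φ p ?_ h _ (fun x => univ.filter fun w => (val (fine g) x0 (tab I) R v, w) ∈ free (l x)) ?_ ?_ r hr
  · intro x x'
    show res (fine g) x0 R c0 (tab (sh g x0 R v (x + x') I)) =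
      res (fine g) x0 R c0 (tab (sh g x0 R v x I)) + ∑ l : Word D m B, x' l • ev B c0 l
    rw [← sh_sh hI, res_sh (cf_sh hI x)]
    rfl
  · intro y
    refine le_trans (le_of_eq ?_) (hφ y)
    rw [Nat.card_eq_fintype_card, Fintype.card_subtype]
  · intro x hx
    exact (hlz x (mem_filter.1 hx).2).2
  · intro x hx x' hx' hd
    have hx1 := (mem_filter.1 hx).2
    have hx2 := (mem_filter.1 hx').2
    have h3 : P.Ends (sh g x0 R v x' I) (l x) (z x) := by
      have h4 := ends_sh (g := g) (x0 := x0) (R := R) (p := v) P (hlz x hx1).1 (x' - x) (by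
        intro w hw
        rw [val_sh hI x R le_rfl]
        have h5 : x' w ≠ x w := fun h6 => hw (by rw [Pi.sub_apply, h6, sub_self])
        have h6 := (mem_filter.1 (hd w h5)).2
        unfold free at h6
        exact (mem_filter.1 h6).2)
      rw [sh_sh hI, add_sub_cancel] at h4
      exact h4
    have h4 := hx2.2.1 _ _ h3
    have h5 := hx1.2.1 _ _ (hlz x hx1).1
    show φ (res (fine g) x0 R c0 (tab (sh g x0 R v x' I))) = φ (res (fine g) x0 R c0 (tab (sh g x0 R v x I)))
    rw [← h4, ← h5]

/-- Correct results, one position. -/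
theorem hole_fun (P : NProg (B × Word D m B) F Z S) (g : Fin D → Equiv.Perm (Fin n)) (x0 : Fin n × Fin m → B)
    (h R : ℕ) (c0 : Fin D × Fin m) (φ : B → Z) (p : ℕ) (hφ : ∀ z, Nat.card {x // φ x = z} ≤ p) (r : ℕ)
    (hr : p * (Fintype.card F * Fintype.card (Word D m B)) ^ r ≤ Fintype.card B * h ^ r) (v : Fin n × Fin m) :
    Nat.card {I : B × Word D m B → F // Gd P g x0 h R c0 φ v I} * (h * Fintype.card F) ^ r ≤
      8 * Fintype.card (Word D m B) ^ r * Nat.card (B × Word D m B → F) := by
  classical
  have hX : 0 < Fintype.card (Word D m B → F) := Fintype.card_pos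
  have h1 := avg (Ω := B × Word D m B → F) (X := Word D m B → F) (fun I => CF (fine g) x0 R (tab I))
    (Gd P g x0 h R c0 φ v) (fun x I => sh g x0 R v x I) (fun x I => sh g x0 R v (-x) I)
    (fun x I hI => cf_sh hI (-x)) (fun x I hI => sh_neg hI x) (fun I hI => hI.1) ((h * Fintype.card F) ^ r)
    (8 * Fintype.card (Word D m B) ^ r * Nat.card (Word D m B → F))
    (fun I hI => hole_orbit P g x0 h R c0 φ p hφ r hr v I hI)
  have h2 : Nat.card {I : B × Word D m B → F // Gd P g x0 h R c0 φ v I} =
      (univ.filter fun I => Gd P g x0 h R c0 φ v I).card := by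
    rw [Nat.card_eq_fintype_card, Fintype.card_subtype]
  rw [h2, Nat.card_eq_fintype_card]
  refine Nat.le_of_mul_le_mul_right ?_ hX
  refine h1.trans (le_of_eq ?_)
  rw [Nat.card_eq_fintype_card]
  ring

/-- The property of `hole_dec`. -/
def Gy (P : NProg (B × Word D m B) F Z S) (g : Fin D → Equiv.Perm (Fin n)) (x0 : Fin n × Fin m → B) (h R : ℕ)
    (c0 : Fin D × Fin m) (Y : Set B) (v : Fin n × Fin m) (I : B × Word D m B → F) : Prop :=
  CF (fine g) x0 R (tab I) ∧ res (fine g) x0 R c0 (tab I) ∈ Y ∧ Hole P g x0 h R v I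

/-- A result is given, but the value is not in `Y`. -/
def Fl (P : NProg (B × Word D m B) F Z S) (g : Fin D → Equiv.Perm (Fin n)) (x0 : Fin n × Fin m → B) (R : ℕ)
    (c0 : Fin D × Fin m) (Y : Set B) (I : B × Word D m B → F) : Prop :=
  res (fine g) x0 R c0 (tab I) ∉ Y ∧ ∃ l z, P.Ends I l z

omit [Fintype F] in
open Classical in
/-- One changed symbol. -/
theorem flip_dec (P : NProg (B × Word D m B) F Z S) (g : Fin D → Equiv.Perm (Fin n)) (x0 : Fin n × Fin m → B)
    (h R : ℕ) (c0 : Fin D × Fin m) (Y : Set B) (v : Fin n × Fin m) (I : B × Word D m B → F)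
    (hI : Gy P g x0 h R c0 Y v I) :
    h * Fintype.card B ≤ (univ.filter fun w : Word D m B => Fl P g x0 R c0 Y (sh g x0 R v (Pi.single w 1) I)).card *
      Fintype.card B + Nat.card Y * Fintype.card (Word D m B) := by
  obtain ⟨hcf, _, l, z, hl, hh⟩ := hI
  set U : Finset (Word D m B) := univ.filter fun w => (val (fine g) x0 (tab I) R v, w) ∈ free l with hU
  have h0 : h ≤ U.card := hh
  set N : Finset B := univ.filter fun y => res (fine g) x0 R c0 (tab I) + y ∈ Y with hN
  have h1 : (univ.filter fun w : Word D m B => ev B c0 w ∈ N).card * Fintype.card B =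
      N.card * Fintype.card (Word D m B) := card_preimage (ev B c0) (ev_surjective B c0) N
  have h2 : N.card ≤ Nat.card Y := by
    rw [Nat.card_eq_fintype_card, ← Set.toFinset_card]
    refine card_le_card_of_injOn (fun y => res (fine g) x0 R c0 (tab I) + y) ?_ ?_
    · intro y hy
      rw [mem_coe, hN, mem_filter] at hy
      rw [mem_coe, Set.mem_toFinset]
      exact hy.2
    · intro y _ y' _ e
      exact add_left_cancel e
  have h3 : U ⊆ (univ.filter fun w : Word D m B => Fl P g x0 R c0 Y (sh g x0 R v (Pi.single w 1) I)) ∪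
      (univ.filter fun w : Word D m B => ev B c0 w ∈ N) := by
    intro w hw
    rw [mem_union]
    by_cases h4 : ev B c0 w ∈ N
    · exact Or.inr (mem_filter.2 ⟨mem_univ _, h4⟩)
    · refine Or.inl (mem_filter.2 ⟨mem_univ _, ?_, l, z, ?_⟩)
      · rw [res_sh hcf]
        intro h5
        apply h4
        rw [hN, mem_filter]
        refine ⟨mem_univ _, ?_⟩
        have h6 : ∑ l : Word D m B, (Pi.single w 1 : Word D m B → F) l • l c0 = ev B c0 w := by
          rw [Finset.sum_eq_single w]
          · rw [Pi.single_eq_same, one_smul]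
            rfl
          · intro l' _ hl'
            rw [Pi.single_eq_of_ne hl', zero_smul]
          · intro h7
            exact absurd (mem_univ _) h7
        rw [← h6]
        exact h5
      · refine ends_sh P hl _ ?_
        intro w' hw'
        have h5 : w' = w := by
          by_contra h6
          exact hw' (Pi.single_eq_of_ne h6 _)
        rw [h5]
        rw [hU, mem_filter] at hw
        have h6 := hw.2
        unfold free at h6
        exact (mem_filter.1 h6).2
  have h4 : h ≤ (univ.filter fun w : Word D m B => Fl P g x0 R c0 Y (sh g x0 R v (Pi.single w 1) I)).card +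
      (univ.filter fun w : Word D m B => ev B c0 w ∈ N).card :=
    h0.trans ((card_le_card h3).trans (card_union_le _ _))
  calc h * Fintype.card B ≤ ((univ.filter fun w : Word D m B =>
        Fl P g x0 R c0 Y (sh g x0 R v (Pi.single w 1) I)).card +
        (univ.filter fun w : Word D m B => ev B c0 w ∈ N).card) * Fintype.card B := Nat.mul_le_mul_right _ h4
    _ = _ + N.card * Fintype.card (Word D m B) := by rw [add_mul, h1]
    _ ≤ _ := Nat.add_le_add_left (Nat.mul_le_mul_right _ h2) _

/-- Decision, one position. -/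
theorem hole_dec (P : NProg (B × Word D m B) F Z S) (g : Fin D → Equiv.Perm (Fin n)) (x0 : Fin n × Fin m → B)
    (h R : ℕ) (c0 : Fin D × Fin m) (Y : Set B) (v : Fin n × Fin m) :
    Nat.card {I : B × Word D m B → F // Gy P g x0 h R c0 Y v I} * (h * Fintype.card B) ≤
      Fintype.card (Word D m B) * Nat.card {I : B × Word D m B → F // Fl P g x0 R c0 Y I} * Fintype.card B +
        Nat.card {I : B × Word D m B → F // Gy P g x0 h R c0 Y v I} *
          (Nat.card Y * Fintype.card (Word D m B)) := by
  classical
  have h2 : Nat.card {I : B × Word D m B → F // Gy P g x0 h R c0 Y v I} =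
      (univ.filter fun I => Gy P g x0 h R c0 Y v I).card := by
    rw [Nat.card_eq_fintype_card, Fintype.card_subtype]
  have h3 : Nat.card {I : B × Word D m B → F // Fl P g x0 R c0 Y I} =
      (univ.filter fun I => Fl P g x0 R c0 Y I).card := by
    rw [Nat.card_eq_fintype_card, Fintype.card_subtype]
  rw [h2, h3]
  set A := univ.filter fun I => Gy P g x0 h R c0 Y v I with hA
  set E := univ.filter fun I => Fl P g x0 R c0 Y I with hE
  have h4 : ∑ I ∈ A, (univ.filter fun w : Word D m B => Fl P g x0 R c0 Y (sh g x0 R v (Pi.single w 1) I)).card ≤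
      Fintype.card (Word D m B) * E.card := by
    calc ∑ I ∈ A, (univ.filter fun w : Word D m B => Fl P g x0 R c0 Y (sh g x0 R v (Pi.single w 1) I)).card
        = ∑ w : Word D m B, (A.filter fun I => Fl P g x0 R c0 Y (sh g x0 R v (Pi.single w 1) I)).card := by
          simp only [card_filter]
          rw [sum_comm]
      _ ≤ ∑ _w : Word D m B, E.card := by
          refine sum_le_sum fun w _ => ?_
          refine card_le_card_of_injOn (fun I => sh g x0 R v (Pi.single w 1) I) ?_ ?_
          · intro I hI
            rw [mem_coe, mem_filter] at hI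
            rw [mem_coe, hE, mem_filter]
            exact ⟨mem_univ _, hI.2⟩
          · intro I hI I' hI' e
            rw [mem_coe, mem_filter, hA, mem_filter] at hI hI'
            have h5 : sh g x0 R v (-(Pi.single w 1)) (sh g x0 R v (Pi.single w 1) I) =
                sh g x0 R v (-(Pi.single w 1)) (sh g x0 R v (Pi.single w 1) I') := congrArg _ e
            rw [sh_sh hI.1.2.1, sh_sh hI'.1.2.1, add_neg_cancel, sh_zero, sh_zero] at h5
            exact h5
      _ = Fintype.card (Word D m B) * E.card := by rw [sum_const, card_univ, smul_eq_mul]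
  calc A.card * (h * Fintype.card B) = ∑ _I ∈ A, h * Fintype.card B := by rw [sum_const, smul_eq_mul]
    _ ≤ ∑ I ∈ A, ((univ.filter fun w : Word D m B =>
          Fl P g x0 R c0 Y (sh g x0 R v (Pi.single w 1) I)).card * Fintype.card B +
          Nat.card Y * Fintype.card (Word D m B)) := by
        refine sum_le_sum fun I hI => ?_
        exact flip_dec P g x0 h R c0 Y v I (mem_filter.1 hI).2
    _ = (∑ I ∈ A, (univ.filter fun w : Word D m B =>
          Fl P g x0 R c0 Y (sh g x0 R v (Pi.single w 1) I)).card) * Fintype.card B +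
          A.card * (Nat.card Y * Fintype.card (Word D m B)) := by
        rw [sum_add_distrib, sum_mul, sum_const, smul_eq_mul]
    _ ≤ _ := Nat.add_le_add_right (Nat.mul_le_mul_right _ h4) _

end main

end Pool.Agent.Helper98.NQ
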